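import Pool.Agent.Q38.GE.Stm

/-!
# Project GE, job TR: basic properties of `tr`
-/

set_option autoImplicit false

namespace Pool.Agent.Q58.GE

open Q38.GE Matrix

variable {K : Type} [Field K] {n : ℕ}

/-- the matrices in the definition of `tr` -/
noncomputable def MM (K : Type) [Field K] {n : ℕ} (i : Fin n) (j : Fin n) :
    Matrix (Fin 2) (Fin 2) (A K n) := !![0, if j = i then (1 : A K n) else 0; 0, x K j]

lemma tr_def (i : Fin n) (a : A K n) : tr i a = ev (K := K) (MM K i) a 0 1 := rfl

lemma ep_x (j : Fin n) : ep (x K j) = 0 := by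
  unfold ep x
  rw [FreeAlgebra.algebraMapInv, FreeAlgebra.lift_ι_apply]
  rfl

lemma ev_x (i j : Fin n) : ev (K := K) (MM K i) (x K j) = MM K i j := by
  unfold ev x
  rw [FreeAlgebra.lift_ι_apply]

lemma ev_entries (i : Fin n) (a : A K n) :
    ev (K := K) (MM K i) a 0 0 = algebraMap K (A K n) (ep a) ∧
    ev (K := K) (MM K i) a 1 0 = 0 ∧ ev (K := K) (MM K i) a 1 1 = a := by
  induction a using FreeAlgebra.induction with
  | grade0 r =>
    rw [AlgHom.commutes, AlgHom.commutes]
    refine ⟨?_, ?_, ?_⟩
    · rw [Matrix.algebraMap_matrix_apply]; simp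
    · rw [Matrix.algebraMap_matrix_apply]; simp
    · rw [Matrix.algebraMap_matrix_apply]; simp
  | grade1 j =>
    have h := ev_x (K := K) i j
    have h2 := ep_x (K := K) j
    change ev (K := K) (MM K i) (x K j) 0 0 = algebraMap K (A K n) (ep (x K j)) ∧
      ev (K := K) (MM K i) (x K j) 1 0 = 0 ∧ ev (K := K) (MM K i) (x K j) 1 1 = x K j
    rw [h, h2]
    simp [MM]
  | mul a b ha hb =>
    obtain ⟨a1, a2, a3⟩ := ha
    obtain ⟨b1, b2, b3⟩ := hb
    rw [map_mul, map_mul, map_mul]
    simp only [Matrix.mul_apply, Fin.sum_univ_two]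
    rw [a1, a2, a3, b1, b2, b3]
    simp
  | add a b ha hb =>
    obtain ⟨a1, a2, a3⟩ := ha
    obtain ⟨b1, b2, b3⟩ := hb
    rw [map_add, map_add, map_add]
    simp only [Matrix.add_apply]
    rw [a1, a2, a3, b1, b2, b3]
    simp

lemma tr_mul (i : Fin n) (a b : A K n) :
    tr i (a * b) = algebraMap K (A K n) (ep a) * tr i b + tr i a * b := by
  rw [tr_def, tr_def, tr_def, map_mul]
  simp only [Matrix.mul_apply, Fin.sum_univ_two]
  rw [(ev_entries i a).1, (ev_entries i b).2.2]

lemma tr_algebraMap (i : Fin n) (k : K) : tr i (algebraMap K (A K n) k) = 0 := by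
  rw [tr_def, AlgHom.commutes, Matrix.algebraMap_matrix_apply]
  simp

lemma tr_x (i j : Fin n) : tr i (x K j) = if j = i then (1 : A K n) else 0 := by
  rw [tr_def, ev_x]
  simp [MM]

lemma tr_x_mul (i j : Fin n) (a : A K n) : tr i (x K j * a) = if j = i then a else 0 := by
  rw [tr_mul, ep_x, tr_x]
  split_ifs <;> simp

lemma expand (a : A K n) : a = algebraMap K _ (ep a) + ∑ i, x K i * tr i a := by
  induction a using FreeAlgebra.induction with
  | grade0 r =>
    simp only [tr_algebraMap, AlgHom.commutes]
    simp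
  | grade1 j =>
    change x K j = algebraMap K _ (ep (x K j)) + ∑ i, x K i * tr i (x K j)
    rw [ep_x]
    simp only [tr_x]
    simp
  | mul a b ha hb =>
    simp only [tr_mul, map_mul]
    have h1 : ∑ i, x K i * (algebraMap K (A K n) (ep a) * tr i b + tr i a * b)
        = algebraMap K (A K n) (ep a) * (∑ i, x K i * tr i b) + (∑ i, x K i * tr i a) * b := by
      rw [Finset.mul_sum, Finset.sum_mul, ← Finset.sum_add_distrib]
      refine Finset.sum_congr rfl (fun i _ => ?_)
      rw [mul_add, ← mul_assoc, ← mul_assoc, ← mul_assoc, Algebra.commutes (ep a) (x K i)]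
    rw [h1, ← add_assoc, ← mul_add, ← hb, ← add_mul, ← ha]
  | add a b ha hb =>
    simp only [map_add, mul_add, Finset.sum_add_distrib]
    calc a + b = (algebraMap K _ (ep a) + ∑ i, x K i * tr i a)
        + (algebraMap K _ (ep b) + ∑ i, x K i * tr i b) := by rw [← ha, ← hb]
      _ = _ := by abel

lemma trw_nil (a : A K n) : trw [] a = a := rfl

lemma trw_cons (i : Fin n) (u : Wd n) (a : A K n) : trw (i :: u) a = trw u (tr i a) := rfl

lemma trw_zero (u : Wd n) : trw u (0 : A K n) = 0 := by
  induction u with
  | nil => rfl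
  | cons i u ih => rw [trw_cons, map_zero, ih]

lemma trw_add (u : Wd n) (a b : A K n) : trw u (a + b) = trw u a + trw u b := by
  induction u generalizing a b with
  | nil => rfl
  | cons i u ih => rw [trw_cons, trw_cons, trw_cons, map_add, ih]

lemma trw_smul (u : Wd n) (k : K) (a : A K n) : trw u (k • a) = k • trw u a := by
  induction u generalizing a with
  | nil => rfl
  | cons i u ih => rw [trw_cons, trw_cons, map_smul, ih]

lemma trw_snoc (i : Fin n) (u : Wd n) (a : A K n) : trw (u ++ [i]) a = tr i (trw u a) := by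
  induction u generalizing a with
  | nil => rfl
  | cons j u ih => rw [List.cons_append, trw_cons, trw_cons, ih]

lemma trw_mul_zero (b : A K n) (Nb : ℕ) (hb : ∀ u : Wd n, Nb ≤ u.length → trw u b = 0) :
    ∀ (Na : ℕ) (a : A K n), (∀ u : Wd n, Na ≤ u.length → trw u a = 0) →
      ∀ u : Wd n, Na + Nb ≤ u.length → trw u (a * b) = 0 := by
  intro Na
  induction Na with
  | zero =>
    intro a ha u _
    have h : a = 0 := ha [] (by simp)
    rw [h, zero_mul, trw_zero]
  | succ Na ih =>
    intro a ha u hu
    cases u with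
    | nil => simp at hu
    | cons i u =>
      rw [List.length_cons] at hu
      rw [trw_cons, tr_mul, trw_add]
      have h1 : trw u (tr i a * b) = 0 := by
        refine ih (tr i a) (fun v hv => ?_) u (by omega)
        have := ha (i :: v) (by rw [List.length_cons]; omega)
        rwa [trw_cons] at this
      have h2 : trw u (algebraMap K (A K n) (ep a) * tr i b) = 0 := by
        rw [← Algebra.smul_def, trw_smul, ← trw_cons]
        rw [hb (i :: u) (by rw [List.length_cons]; omega), smul_zero]
      rw [h1, h2, add_zero]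

lemma trw_eventually (a : A K n) : ∃ N : ℕ, ∀ u : Wd n, N ≤ u.length → trw u a = 0 := by
  induction a using FreeAlgebra.induction with
  | grade0 r =>
    refine ⟨1, fun u hu => ?_⟩
    cases u with
    | nil => simp at hu
    | cons i u => rw [trw_cons, tr_algebraMap, trw_zero]
  | grade1 j =>
    refine ⟨2, fun u hu => ?_⟩
    change trw u (x K j) = 0
    cases u with
    | nil => simp at hu
    | cons i u =>
      cases u with
      | nil => simp at hu
      | cons i' u =>
        rw [trw_cons, tr_x, trw_cons]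
        have h : tr i' (if j = i then (1 : A K n) else 0) = 0 := by
          split_ifs
          · have := tr_algebraMap (K := K) i' 1
            rwa [map_one] at this
          · exact map_zero _
        rw [h, trw_zero]
  | mul a b ha hb =>
    obtain ⟨Na, ha⟩ := ha
    obtain ⟨Nb, hb⟩ := hb
    exact ⟨Na + Nb, trw_mul_zero b Nb hb Na a ha⟩
  | add a b ha hb =>
    obtain ⟨Na, ha⟩ := ha
    obtain ⟨Nb, hb⟩ := hb
    refine ⟨max Na Nb, fun u hu => ?_⟩
    rw [trw_add, ha u ((le_max_left _ _).trans hu), hb u ((le_max_right _ _).trans hu), add_zero]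

lemma eq_zero_of : ∀ (N : ℕ) (a : A K n), (∀ u : Wd n, N ≤ u.length → trw u a = 0) →
    (∀ u, ep (trw u a) = 0) → a = 0 := by
  intro N
  induction N with
  | zero => intro a ha _; exact ha [] (by simp)
  | succ N ih =>
    intro a ha h
    have h0 : ep a = 0 := h []
    have h1 : ∀ i, tr i a = 0 := by
      intro i
      refine ih (tr i a) (fun u hu => ?_) (fun u => ?_)
      · have := ha (i :: u) (by rw [List.length_cons]; omega)
        rwa [trw_cons] at this
      · have := h (i :: u)
        rwa [trw_cons] at this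
    rw [expand a, h0]
    simp [h1]

theorem tr_all : S_TR := by
  intro K _ n
  refine ⟨expand, tr_algebraMap, tr_x_mul, ?_, trw_eventually, trw_snoc⟩
  intro a h
  obtain ⟨N, hN⟩ := trw_eventually a
  exact eq_zero_of N a hN h

end Pool.Agent.Q58.GE
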